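import Pool.Agent.Helper57.TD.Defs

/-!
# Lifting lemmas for frames with arbitrary virtual edges and for the goal in both modes
-/

set_option autoImplicit false

namespace Pool.Agent.Helper57.TD

open SimpleGraph Pool.Agent.Helper57.TOK

variable {V : Type*}

/-! ### Virtual edges with both ends in `T` -/

lemma sup_adj_iff {Z E : SimpleGraph V} {x y : V} : (Z ⊔ E).Adj x y ↔ Z.Adj x y ∨ E.Adj x y :=
  Iff.rfl

lemma supp_sup {Z E : SimpleGraph V} {T : Set V} (hET : ∀ x y, E.Adj x y → x ∈ T ∧ y ∈ T) :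
    ∀ x, x ∈ supp (Z ⊔ E) → x ∈ supp Z ∨ x ∈ T := by
  rintro x ⟨w, h | h⟩
  · exact Or.inl ⟨w, h⟩
  · exact Or.inr (hET x w h).1

lemma pathE_mem {u p q v : V} {T : Set V} (hT : T = {u, p, q, v}) :
    ∀ x y, (pathE u p q v).Adj x y → x ∈ T ∧ y ∈ T := by
  intro x y h
  rw [pathE_adj] at h
  have hu : u ∈ T := by rw [hT]; simp
  have hp : p ∈ T := by rw [hT]; simp
  have hq : q ∈ T := by rw [hT]; simp
  have hv : v ∈ T := by rw [hT]; simp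
  rcases h.2 with h1 | h1 | h1
  · rw [Sym2.eq_iff] at h1
    rcases h1 with ⟨rfl, rfl⟩ | ⟨rfl, rfl⟩
    · exact ⟨hu, hp⟩
    · exact ⟨hp, hu⟩
  · rw [Sym2.eq_iff] at h1
    rcases h1 with ⟨rfl, rfl⟩ | ⟨rfl, rfl⟩
    · exact ⟨hp, hq⟩
    · exact ⟨hq, hp⟩
  · rw [Sym2.eq_iff] at h1
    rcases h1 with ⟨rfl, rfl⟩ | ⟨rfl, rfl⟩
    · exact ⟨hq, hv⟩
    · exact ⟨hv, hq⟩

/-- Frames are monotone in the graph. -/
theorem FrameX.mono {Z Z' E : SimpleGraph V} {κ : V → ZMod 2} {T : Set V}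
    (hET : ∀ x y, E.Adj x y → x ∈ T ∧ y ∈ T) (hle : Z' ≤ Z)
    (hTT : ∀ a ∈ T, ∀ b ∈ T, ¬ Z.Adj a b) (h : FrameX Z' κ E) : FrameX Z κ E := by
  unfold FrameX at h ⊢
  refine HasTOK4s.mono (sup_le_sup_right hle E) ?_ h
  intro e he
  induction e using Sym2.ind with
  | _ x y =>
    rw [SimpleGraph.mem_edgeSet] at he
    rcases he with h1 | h1
    · rw [cE_of_adj h1, cE_of_adj (hle h1)]
    · have hn := hTT x (hET x y h1).1 y (hET x y h1).2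
      rw [cE_of_not_adj hn, cE_of_not_adj (fun hh => hn (hle hh))]

/-- Frames are monotone in the virtual edges. -/
theorem FrameX.mono_virtual {Z E E' : SimpleGraph V} {κ : V → ZMod 2} (hle : E ≤ E')
    (h : FrameX Z κ E) : FrameX Z κ E' := by
  unfold FrameX at h ⊢
  exact HasTOK4s.mono (sup_le_sup_left hle Z) (fun _ _ => rfl) h

/-- Ordinary frames are frames for every set of virtual edges containing the two. -/
theorem FrameX.of_frameE {Z E : SimpleGraph V} {κ : V → ZMod 2} {a b u v : V}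
    (hab : E.Adj a b) (huv : E.Adj u v) (h : FrameE Z κ a b u v) : FrameX Z κ E := by
  unfold FrameX
  unfold FrameE at h
  refine HasTOK4s.mono ?_ (fun _ _ => rfl) h
  rintro x y ⟨h1, h2 | h2 | h2⟩
  · exact Or.inl h2
  · rw [Sym2.eq_iff] at h2
    rcases h2 with ⟨rfl, rfl⟩ | ⟨rfl, rfl⟩
    · exact Or.inr hab
    · exact Or.inr hab.symm
  · rw [Sym2.eq_iff] at h2
    rcases h2 with ⟨rfl, rfl⟩ | ⟨rfl, rfl⟩
    · exact Or.inr huv
    · exact Or.inr huv.symm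

/-- MERGE: `Z'` is a subgraph of the merged graph, `κ p = κ q`, and `p`, `q` are joined in `Z` by
a path whose interior is isolated in `Z'` and contains no terminal. -/
theorem FrameX.of_merge {Z Z' E : SimpleGraph V} {κ : V → ZMod 2} {T : Set V} {p q : V}
    (hET : ∀ x y, E.Adj x y → x ∈ T ∧ y ∈ T)
    (hle : Z' ≤ mergeG Z p q) (hTT' : ∀ a ∈ T, ∀ b ∈ T, ¬ Z'.Adj a b)
    (hTT : ∀ a ∈ T, ∀ b ∈ T, ¬ Z.Adj a b) (hpq : p ≠ q) (hκ : κ p = κ q)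
    (R0 : Z.Walk p q) (hR0 : R0.IsPath)
    (hR0K : ∀ z ∈ R0.support, z = p ∨ z = q ∨ (z ∉ supp Z' ∧ z ∉ T))
    (hqT : q ∉ T) (hF : FrameX Z' κ E) : FrameX Z κ E := by
  classical
  unfold FrameX at hF ⊢
  have hleG : Z ≤ Z ⊔ E := le_sup_left
  have hc : ∀ e ∈ Z.edgeSet, cE Z κ e = klab κ e := fun e he => if_pos he
  have hvirt : ∀ x w, E.Adj x w → ¬ Z'.Adj x w ∧ ¬ Z.Adj x w := fun x w h =>
    ⟨hTT' x (hET x w h).1 w (hET x w h).2, hTT x (hET x w h).1 w (hET x w h).2⟩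
  have hqterm : ∀ w, (Z ⊔ E).Adj q w → Z.Adj q w := by
    rintro w (h | h)
    · exact h
    · exact absurd (hET q w h).1 hqT
  refine HasTOK4s.of_merge (G := Z ⊔ E) (K0 := Z' ⊔ E) (c' := cE Z' κ)
    (p := p) (q := q) (R0.mapLe hleG) ((Walk.isPath_mapLe hleG).2 hR0) hpq ?_ ?_ ?_ ?_ ?_ ?_ hF
  · rw [wt_mapLe, wt_of_klab hc R0, hκ]; exact CharTwo.add_self_eq_zero _
  · rintro x w (h2 | h2)
    · rw [mergeG_adj]
      obtain ⟨g1, g2, g3, g4⟩ := mergeG_adj.1 (hle h2)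
      refine ⟨g1, g2, g3, ?_⟩
      rcases g4 with g4 | g4 | g4
      · exact Or.inl (hleG g4)
      · exact Or.inr (Or.inl ⟨g4.1, hleG g4.2⟩)
      · exact Or.inr (Or.inr ⟨g4.1, hleG g4.2⟩)
    · rw [mergeG_adj]
      exact ⟨h2.ne, fun h => hqT (h ▸ (hET x w h2).1), fun h => hqT (h ▸ (hET x w h2).2),
        Or.inl (Or.inr h2)⟩
  · intro z hz
    rw [Walk.support_mapLe_eq_support] at hz
    rcases hR0K z hz with h | h | ⟨h, h'⟩
    · exact Or.inl h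
    · exact Or.inr (Or.inl h)
    · refine Or.inr (Or.inr ?_)
      intro hh
      rcases supp_sup hET z hh with h1 | h1
      · exact h h1
      · exact h' h1
  · rintro w (h1 | h1) hG
    · rw [cE_of_adj h1]
      by_cases hZ : Z.Adj p w
      · rw [cE_of_adj hZ]
      · exact absurd h1 (hvirt p w (hG.resolve_left hZ)).1
    · obtain ⟨g1, g2⟩ := hvirt p w h1
      rw [cE_of_not_adj g1, cE_of_not_adj g2]
  · rintro w (h1 | h1) hn hG
    · rw [cE_of_adj (hqterm w hG), cE_of_adj h1, hκ]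
    · exact absurd (Or.inr h1) hn
  · rintro x w (h1 | h1) _ _ hG
    · rw [cE_of_adj h1]
      by_cases hZ : Z.Adj x w
      · rw [cE_of_adj hZ]
      · exact absurd h1 (hvirt x w (hG.resolve_left hZ)).1
    · obtain ⟨g1, g2⟩ := hvirt x w h1
      rw [cE_of_not_adj g1, cE_of_not_adj g2]

/-- Contraction of an even edge. -/
theorem FrameX.of_contract {Z Z' E : SimpleGraph V} {κ : V → ZMod 2} {T : Set V} {p q : V}
    (hET : ∀ x y, E.Adj x y → x ∈ T ∧ y ∈ T)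
    (hle : Z' ≤ mergeG Z p q) (hTT' : ∀ a ∈ T, ∀ b ∈ T, ¬ Z'.Adj a b)
    (hTT : ∀ a ∈ T, ∀ b ∈ T, ¬ Z.Adj a b) (hadj : Z.Adj p q)
    (hκ : κ p = κ q) (hqT : q ∉ T) (hF : FrameX Z' κ E) : FrameX Z κ E := by
  obtain ⟨R, hR, -, hRs⟩ := exists_edge_walk (fun _ => (1 : ZMod 2)) hadj
  refine FrameX.of_merge hET hle hTT' hTT hadj.ne hκ R hR ?_ hqT hF
  intro z hz
  rw [hRs] at hz
  simp only [List.mem_cons, List.not_mem_nil, or_false] at hz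
  rcases hz with hz | hz
  · exact Or.inl hz
  · exact Or.inr (Or.inl hz)

/-- Fold: `y` has neighbours `p`, `q` of the same colour. -/
theorem FrameX.of_fold {Z Z' E : SimpleGraph V} {κ : V → ZMod 2} {T : Set V} {y p q : V}
    (hET : ∀ x y, E.Adj x y → x ∈ T ∧ y ∈ T)
    (hle : Z' ≤ foldG Z y p q) (hTT' : ∀ a ∈ T, ∀ b ∈ T, ¬ Z'.Adj a b)
    (hTT : ∀ a ∈ T, ∀ b ∈ T, ¬ Z.Adj a b) (hpq : p ≠ q) (hyp : Z.Adj y p) (hyq : Z.Adj y q)
    (hκ : κ p = κ q) (hyT : y ∉ T) (hqT : q ∉ T) (hF : FrameX Z' κ E) : FrameX Z κ E := by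
  have hyZ' : y ∉ supp Z' := fun ⟨w, hw⟩ => (foldG_adj.1 (hle hw)).2.1 rfl
  have hle' : Z' ≤ mergeG Z p q := by
    intro x w h
    obtain ⟨g1, g2, g3, g4, g5, g6⟩ := foldG_adj.1 (hle h)
    exact ⟨g1, g4, g5, g6⟩
  refine FrameX.of_merge hET hle' hTT' hTT hpq hκ
    (Walk.cons hyp.symm (Walk.cons hyq Walk.nil)) ?_ ?_ hqT hF
  · rw [Walk.cons_isPath_iff, Walk.cons_isPath_iff]
    refine ⟨⟨Walk.IsPath.nil, by simpa using hyq.ne⟩, ?_⟩
    simp only [Walk.support_cons, Walk.support_nil, List.mem_cons, List.not_mem_nil, or_false]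
    push Not
    exact ⟨hyp.ne.symm, hpq⟩
  · intro z hz
    simp only [Walk.support_cons, Walk.support_nil, List.mem_cons, List.not_mem_nil,
      or_false] at hz
    rcases hz with hz | hz | hz
    · exact Or.inl hz
    · refine Or.inr (Or.inr ?_)
      rw [hz]
      exact ⟨hyZ', hyT⟩
    · exact Or.inr (Or.inl hz)

/-- TOPOLOGICAL SUBSTITUTION on the same vertex type: every edge of `Z'` is replaced by a path of
`Z` with the same ends; the interiors are marked by `lab` and avoid `Z'` and the terminals. -/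
theorem FrameX.of_topo_id {Z Z' E : SimpleGraph V} {κ : V → ZMod 2} {T : Set V}
    (lab : V → Sym2 V) (hET : ∀ x y, E.Adj x y → x ∈ T ∧ y ∈ T)
    (hR : ∀ x y, Z'.Adj x y → ∃ R : Z.Walk x y, R.IsPath ∧
      ∀ z ∈ R.support, z = x ∨ z = y ∨ (lab z = s(x, y) ∧ z ∉ supp Z' ∧ z ∉ T))
    (hTT' : ∀ a ∈ T, ∀ b ∈ T, ¬ Z'.Adj a b) (hTT : ∀ a ∈ T, ∀ b ∈ T, ¬ Z.Adj a b)
    (hF : FrameX Z' κ E) : FrameX Z κ E := by
  unfold FrameX at hF ⊢
  have hleG : Z ≤ Z ⊔ E := le_sup_left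
  have hc : ∀ e ∈ Z.edgeSet, cE Z κ e = klab κ e := fun e he => if_pos he
  refine HasTOK4s.subst (K := Z' ⊔ E) (G := Z ⊔ E) (cK := cE Z' κ) (fun x => x) lab
    (fun x _ y _ h => h) ?_ hF
  rintro x y (hxy | hxy)
  · obtain ⟨R, h1, h2⟩ := hR x y hxy
    refine ⟨R.mapLe hleG, (Walk.isPath_mapLe hleG).2 h1, ?_, ?_⟩
    · rw [wt_mapLe, wt_of_klab hc R, cE_of_adj hxy]
    · intro z hz
      rw [Walk.support_mapLe_eq_support] at hz
      rcases h2 z hz with h | h | ⟨h, h', h''⟩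
      · exact Or.inl h
      · exact Or.inr (Or.inl h)
      · refine Or.inr (Or.inr ⟨h, ?_⟩)
        rintro ⟨w, hw, hwz⟩
        have hwz' : w = z := hwz
        rw [hwz'] at hw
        rcases supp_sup hET z hw with h3 | h3
        · exact h' h3
        · exact h'' h3
  · have hadj : (Z ⊔ E).Adj x y := Or.inr hxy
    obtain ⟨R, h1, h2, h3⟩ := exists_edge_walk (cE Z κ) hadj
    refine ⟨R, h1, ?_, ?_⟩
    · rw [h2, cE_of_not_adj (hTT x (hET x y hxy).1 y (hET x y hxy).2),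
        cE_of_not_adj (hTT' x (hET x y hxy).1 y (hET x y hxy).2)]
    · intro z hz
      rw [h3] at hz
      simp only [List.mem_cons, List.not_mem_nil, or_false] at hz
      rcases hz with hz | hz
      · exact Or.inl hz
      · exact Or.inr (Or.inl hz)

/-- Topological substitution for all ordinary frames, on the same vertex type. -/
theorem AllFramesE.of_topo_id {Z Z' : SimpleGraph V} {κ : V → ZMod 2} {T : Set V}
    (lab : V → Sym2 V)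
    (hR : ∀ x y, Z'.Adj x y → ∃ R : Z.Walk x y, R.IsPath ∧
      ∀ z ∈ R.support, z = x ∨ z = y ∨ (lab z = s(x, y) ∧ z ∉ supp Z' ∧ z ∉ T))
    (hTT' : ∀ a ∈ T, ∀ b ∈ T, ¬ Z'.Adj a b) (hTT : ∀ a ∈ T, ∀ b ∈ T, ¬ Z.Adj a b)
    (hF : AllFramesE Z' κ T) : AllFramesE Z κ T := by
  have h := AllFramesE.of_topo (Z' := Z') (Z := Z) (κ' := κ) (κ := κ) (T := T) (fun x => x) lab
    (fun x _ y _ h => h) (fun _ => rfl) ?_ hTT' hTT hF
  · have himg : (fun x => x) '' T = T := Set.image_id T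
    rwa [himg] at h
  · intro x y hxy
    obtain ⟨R, h1, h2⟩ := hR x y hxy
    refine ⟨R, h1, ?_⟩
    intro z hz
    rcases h2 z hz with h | h | ⟨h, h', h''⟩
    · exact Or.inl h
    · exact Or.inr (Or.inl h)
    · refine Or.inr (Or.inr ⟨h, ?_⟩)
      rintro ⟨w, hw, hwz⟩
      have hwz' : w = z := hwz
      rw [hwz'] at hw
      rcases hw with h3 | h3
      · exact h' h3
      · exact h'' h3

/-! ### The goal of the tight version -/

theorem HT.mono {Z Z' : SimpleGraph V} {κ : V → ZMod 2} {T : Set V} (hle : Z' ≤ Z)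
    (hTT : ∀ a ∈ T, ∀ b ∈ T, ¬ Z.Adj a b) (hF : HT Z' κ T) : HT Z κ T :=
  fun u p q v hT g1 g2 h1 h2 h3 =>
    FrameX.mono (pathE_mem hT) hle hTT (hF u p q v hT g1 g2 h1 h2 h3)

theorem HT.of_merge {Z Z' : SimpleGraph V} {κ : V → ZMod 2} {T : Set V} {p q : V}
    (hle : Z' ≤ mergeG Z p q) (hTT' : ∀ a ∈ T, ∀ b ∈ T, ¬ Z'.Adj a b)
    (hTT : ∀ a ∈ T, ∀ b ∈ T, ¬ Z.Adj a b) (hpq : p ≠ q) (hκ : κ p = κ q)
    (R0 : Z.Walk p q) (hR0 : R0.IsPath)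
    (hR0K : ∀ z ∈ R0.support, z = p ∨ z = q ∨ (z ∉ supp Z' ∧ z ∉ T))
    (hqT : q ∉ T) (hF : HT Z' κ T) : HT Z κ T :=
  fun u p1 q1 v hT g1 g2 h1 h2 h3 =>
    FrameX.of_merge (pathE_mem hT) hle hTT' hTT hpq hκ R0 hR0 hR0K hqT (hF u p1 q1 v hT g1 g2 h1 h2 h3)

theorem HT.of_contract {Z Z' : SimpleGraph V} {κ : V → ZMod 2} {T : Set V} {p q : V}
    (hle : Z' ≤ mergeG Z p q) (hTT' : ∀ a ∈ T, ∀ b ∈ T, ¬ Z'.Adj a b)
    (hTT : ∀ a ∈ T, ∀ b ∈ T, ¬ Z.Adj a b) (hadj : Z.Adj p q)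
    (hκ : κ p = κ q) (hqT : q ∉ T) (hF : HT Z' κ T) : HT Z κ T :=
  fun u p1 q1 v hT g1 g2 h1 h2 h3 =>
    FrameX.of_contract (pathE_mem hT) hle hTT' hTT hadj hκ hqT (hF u p1 q1 v hT g1 g2 h1 h2 h3)

theorem HT.of_fold {Z Z' : SimpleGraph V} {κ : V → ZMod 2} {T : Set V} {y p q : V}
    (hle : Z' ≤ foldG Z y p q) (hTT' : ∀ a ∈ T, ∀ b ∈ T, ¬ Z'.Adj a b)
    (hTT : ∀ a ∈ T, ∀ b ∈ T, ¬ Z.Adj a b) (hpq : p ≠ q) (hyp : Z.Adj y p) (hyq : Z.Adj y q)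
    (hκ : κ p = κ q) (hyT : y ∉ T) (hqT : q ∉ T) (hF : HT Z' κ T) : HT Z κ T :=
  fun u p1 q1 v hT g1 g2 h1 h2 h3 =>
    FrameX.of_fold (pathE_mem hT) hle hTT' hTT hpq hyp hyq hκ hyT hqT (hF u p1 q1 v hT g1 g2 h1 h2 h3)

theorem HT.of_topo_id {Z Z' : SimpleGraph V} {κ : V → ZMod 2} {T : Set V}
    (lab : V → Sym2 V)
    (hR : ∀ x y, Z'.Adj x y → ∃ R : Z.Walk x y, R.IsPath ∧
      ∀ z ∈ R.support, z = x ∨ z = y ∨ (lab z = s(x, y) ∧ z ∉ supp Z' ∧ z ∉ T))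
    (hTT' : ∀ a ∈ T, ∀ b ∈ T, ¬ Z'.Adj a b) (hTT : ∀ a ∈ T, ∀ b ∈ T, ¬ Z.Adj a b)
    (hF : HT Z' κ T) : HT Z κ T :=
  fun u p1 q1 v hT g1 g2 h1 h2 h3 =>
    FrameX.of_topo_id lab (pathE_mem hT) hR hTT' hTT (hF u p1 q1 v hT g1 g2 h1 h2 h3)

/-! ### The goal in both modes -/

theorem Goal.mono {md : Bool} {Z Z' : SimpleGraph V} {κ : V → ZMod 2} {T : Set V} (hle : Z' ≤ Z)
    (hTT : ∀ a ∈ T, ∀ b ∈ T, ¬ Z.Adj a b) (hF : Goal md Z' κ T) : Goal md Z κ T := by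
  cases md
  swap
  · exact HT.mono hle hTT hF
  · exact AllFramesE.mono hle hTT hF

theorem Goal.of_contract {md : Bool} {Z Z' : SimpleGraph V} {κ : V → ZMod 2} {T : Set V}
    {p q : V} (hle : Z' ≤ mergeG Z p q) (hTT' : ∀ a ∈ T, ∀ b ∈ T, ¬ Z'.Adj a b)
    (hTT : ∀ a ∈ T, ∀ b ∈ T, ¬ Z.Adj a b) (hadj : Z.Adj p q)
    (hκ : κ p = κ q) (hqT : q ∉ T) (hF : Goal md Z' κ T) : Goal md Z κ T := by
  cases md
  swap
  · exact HT.of_contract hle hTT' hTT hadj hκ hqT hF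
  · exact AllFramesE.of_contract hle hTT' hTT hadj hκ hqT hF

theorem Goal.of_fold {md : Bool} {Z Z' : SimpleGraph V} {κ : V → ZMod 2} {T : Set V}
    {y p q : V} (hle : Z' ≤ foldG Z y p q) (hTT' : ∀ a ∈ T, ∀ b ∈ T, ¬ Z'.Adj a b)
    (hTT : ∀ a ∈ T, ∀ b ∈ T, ¬ Z.Adj a b) (hpq : p ≠ q) (hyp : Z.Adj y p) (hyq : Z.Adj y q)
    (hκ : κ p = κ q) (hyT : y ∉ T) (hqT : q ∉ T) (hF : Goal md Z' κ T) : Goal md Z κ T := by
  cases md
  swap
  · exact HT.of_fold hle hTT' hTT hpq hyp hyq hκ hyT hqT hF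
  · exact AllFramesE.of_fold hle hTT' hTT hpq hyp hyq hκ hyT hqT hF

theorem Goal.of_topo_id {md : Bool} {Z Z' : SimpleGraph V} {κ : V → ZMod 2} {T : Set V}
    (lab : V → Sym2 V)
    (hR : ∀ x y, Z'.Adj x y → ∃ R : Z.Walk x y, R.IsPath ∧
      ∀ z ∈ R.support, z = x ∨ z = y ∨ (lab z = s(x, y) ∧ z ∉ supp Z' ∧ z ∉ T))
    (hTT' : ∀ a ∈ T, ∀ b ∈ T, ¬ Z'.Adj a b) (hTT : ∀ a ∈ T, ∀ b ∈ T, ¬ Z.Adj a b)
    (hF : Goal md Z' κ T) : Goal md Z κ T := by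
  cases md
  swap
  · exact HT.of_topo_id lab hR hTT' hTT hF
  · exact AllFramesE.of_topo_id lab hR hTT' hTT hF

end Pool.Agent.Helper57.TD
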