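import Pool.Agent.Helper73.TD.Goal
import Pool.Agent.Helper57.TD.Core

/-!
# H-trees of the small tight societies
-/

set_option autoImplicit false
set_option synthInstance.maxSize 2000

namespace Pool.Agent.Helper57.TD

open SimpleGraph Pool.Agent.Helper57.TOK

variable {V : Type*}

/-- Computable labels for a virtual path. -/
def cP {n : ℕ} (u p q v : Fin n) : Sym2 (Fin n) → ZMod 2 :=
  fun e => if e = s(u, p) then 0 else if e = s(q, v) then 0 else 1

/-- Decidable form of the graph with a virtual path. -/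
def withPath {n : ℕ} (K : SimpleGraph (Fin n)) (u p q v : Fin n) : SimpleGraph (Fin n) where
  Adj x y := x ≠ y ∧ (K.Adj x y ∨ s(x, y) = s(u, p) ∨ s(x, y) = s(p, q) ∨ s(x, y) = s(q, v))
  symm := ⟨by
    rintro x y ⟨h1, h2⟩
    refine ⟨h1.symm, ?_⟩
    rw [Sym2.eq_swap (a := y)]
    exact h2.imp_left (fun h => h.symm)⟩
  loopless := ⟨fun x h => h.1 rfl⟩

instance {n : ℕ} (K : SimpleGraph (Fin n)) [DecidableRel K.Adj] (u p q v : Fin n) :
    DecidableRel (withPath K u p q v).Adj := fun x y =>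
  inferInstanceAs (Decidable (x ≠ y ∧ (K.Adj x y ∨ s(x, y) = s(u, p) ∨ s(x, y) = s(p, q) ∨
    s(x, y) = s(q, v))))

lemma pathE_swap (u p q v : V) : pathE u p q v = pathE v q p u := by
  ext x y
  rw [pathE_adj, pathE_adj, Sym2.eq_swap (a := v), Sym2.eq_swap (a := q) (b := p),
    Sym2.eq_swap (a := p) (b := u)]
  tauto

/-- Transfer of a small H-tree. -/
theorem FrameX.of_small {n : ℕ} {K : SimpleGraph (Fin n)} {Z : SimpleGraph V} {κ : V → ZMod 2}
    {u p q v : Fin n} (φ : Fin n → V) (hφ : Function.Injective φ)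
    (h : ∀ x y, K.Adj x y → Z.Adj (φ x) (φ y) ∧ κ (φ x) ≠ κ (φ y))
    (hKn : ∀ x y, K.Adj x y → s(x, y) ≠ s(u, p) ∧ s(x, y) ≠ s(q, v))
    (hup : ¬ Z.Adj (φ u) (φ p)) (hpq : ¬ Z.Adj (φ p) (φ q)) (hqv : ¬ Z.Adj (φ q) (φ v))
    (h1 : κ (φ p) = κ (φ q)) (h2 : κ (φ u) = κ (φ v)) (h3 : κ (φ p) ≠ κ (φ u))
    (hne1 : s(p, q) ≠ s(u, p)) (hne2 : s(p, q) ≠ s(q, v))
    (hF : HasTOK4s (withPath K u p q v) (cP u p q v)) :
    FrameX Z κ (pathE (φ u) (φ p) (φ q) (φ v)) := by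
  unfold FrameX
  refine HasTOK4s.of_injective φ (fun x _ y _ h => hφ h) ?_ hF
  have h22 : ∀ z : ZMod 2, z + z = 0 := fun z => CharTwo.add_self_eq_zero z
  rintro x y ⟨hne, hxy⟩
  have hne' : φ x ≠ φ y := fun hh => hne (hφ hh)
  have hmap : ∀ a b : Fin n, s(x, y) = s(a, b) → s(φ x, φ y) = s(φ a, φ b) := by
    intro a b he
    have := congrArg (Sym2.map φ) he
    simpa using this
  rcases hxy with hxy | hxy | hxy | hxy
  · obtain ⟨g1, g2⟩ := h x y hxy
    obtain ⟨g3, g4⟩ := hKn x y hxy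
    refine ⟨Or.inl g1, ?_⟩
    rw [cE_of_adj g1]
    unfold cP
    rw [if_neg g3, if_neg g4]
    exact add_eq_one_iff.2 g2
  · refine ⟨Or.inr ?_, ?_⟩
    · rw [pathE_adj]; exact ⟨hne', Or.inl (hmap _ _ hxy)⟩
    · rw [hmap _ _ hxy, cE_of_not_adj hup]
      unfold cP
      rw [if_pos hxy]
      show 1 + κ (φ u) + κ (φ p) = 0
      have : κ (φ u) + κ (φ p) = 1 := add_eq_one_iff.2 (fun hh => h3 hh.symm)
      rw [add_assoc, this]; exact h22 1
  · refine ⟨Or.inr ?_, ?_⟩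
    · rw [pathE_adj]; exact ⟨hne', Or.inr (Or.inl (hmap _ _ hxy))⟩
    · rw [hmap _ _ hxy, cE_of_not_adj hpq]
      unfold cP
      rw [if_neg (by rw [hxy]; exact hne1), if_neg (by rw [hxy]; exact hne2)]
      show 1 + κ (φ p) + κ (φ q) = 1
      rw [h1, add_assoc, h22, add_zero]
  · refine ⟨Or.inr ?_, ?_⟩
    · rw [pathE_adj]; exact ⟨hne', Or.inr (Or.inr (hmap _ _ hxy))⟩
    · rw [hmap _ _ hxy, cE_of_not_adj hqv]
      unfold cP
      have : κ (φ q) + κ (φ v) = 1 := by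
        rw [← h1, ← h2]; exact add_eq_one_iff.2 h3
      have hlhs : vl κ (φ q) (φ v) = 0 := by
        show 1 + κ (φ q) + κ (φ v) = 0
        rw [add_assoc, this]; exact h22 1
      rw [hlhs]
      split_ifs <;> simp_all

/-- `HT` from the four orders of the terminals. -/
theorem HT.of_four {Z : SimpleGraph V} {κ : V → ZMod 2} {a b c d : V}
    (hab : κ a = κ b) (hcd : κ c = κ d) (hac : κ a ≠ κ c)
    (h1 : FrameX Z κ (pathE c a b d)) (h2 : FrameX Z κ (pathE d a b c))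
    (h3 : FrameX Z κ (pathE a c d b)) (h4 : FrameX Z κ (pathE b c d a)) :
    HT Z κ {a, b, c, d} := by
  intro u p q v hT hpq huv k1 k2 k3
  have hmem : ∀ x, x ∈ ({u, p, q, v} : Set V) → x = a ∨ x = b ∨ x = c ∨ x = d := by
    intro x hx
    rw [← hT] at hx
    simpa using hx
  have hu := hmem u (by simp)
  have hp := hmem p (by simp)
  have hq := hmem q (by simp)
  have hv := hmem v (by simp)
  have hbc : κ b ≠ κ c := fun h => hac (hab.trans h)
  have had : κ a ≠ κ d := fun h => hac (h.trans hcd.symm)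
  have hbd : κ b ≠ κ d := fun h => hbc (h.trans hcd.symm)
  rcases hp with rfl | rfl | rfl | rfl
  · -- p = a
    have hq' : q = b := by
      rcases hq with h | h | h | h
      · exact absurd h.symm hpq
      · exact h
      · exact absurd (k1.trans (congrArg κ h)) hac
      · exact absurd (k1.trans (congrArg κ h)) had
    subst hq'
    rcases hu with rfl | rfl | rfl | rfl
    · exact absurd rfl k3
    · exact absurd k1 k3
    · rcases hv with h | h | h | h
      · exact absurd (k2.trans (congrArg κ h)) (fun hh => k3 hh.symm)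
      · exact absurd (k2.trans (congrArg κ h)) (fun hh => k3 (k1.trans hh.symm))
      · exact absurd h.symm huv
      · subst h; exact h1
    · rcases hv with h | h | h | h
      · exact absurd (k2.trans (congrArg κ h)) (fun hh => k3 hh.symm)
      · exact absurd (k2.trans (congrArg κ h)) (fun hh => k3 (k1.trans hh.symm))
      · subst h; exact h2
      · exact absurd h.symm huv
  · -- p = b
    have hq' : q = a := by
      rcases hq with h | h | h | h
      · exact h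
      · exact absurd h.symm hpq
      · exact absurd (k1.trans (congrArg κ h)) hbc
      · exact absurd (k1.trans (congrArg κ h)) hbd
    subst hq'
    rcases hu with rfl | rfl | rfl | rfl
    · exact absurd k1 k3
    · exact absurd rfl k3
    · rcases hv with h | h | h | h
      · exact absurd (k2.trans (congrArg κ h)) (fun hh => k3 (k1.trans hh.symm))
      · exact absurd (k2.trans (congrArg κ h)) (fun hh => k3 hh.symm)
      · exact absurd h.symm huv
      · subst h; rw [pathE_swap]; exact h2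
    · rcases hv with h | h | h | h
      · exact absurd (k2.trans (congrArg κ h)) (fun hh => k3 (k1.trans hh.symm))
      · exact absurd (k2.trans (congrArg κ h)) (fun hh => k3 hh.symm)
      · subst h; rw [pathE_swap]; exact h1
      · exact absurd h.symm huv
  · -- p = c
    have hq' : q = d := by
      rcases hq with h | h | h | h
      · exact absurd (k1.trans (congrArg κ h)).symm hac
      · exact absurd (k1.trans (congrArg κ h)).symm hbc
      · exact absurd h.symm hpq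
      · exact h
    subst hq'
    rcases hu with rfl | rfl | rfl | rfl
    · rcases hv with h | h | h | h
      · exact absurd h.symm huv
      · subst h; exact h3
      · exact absurd (k2.trans (congrArg κ h)) (fun hh => k3 hh.symm)
      · exact absurd (k2.trans (congrArg κ h)) (fun hh => k3 (k1.trans hh.symm))
    · rcases hv with h | h | h | h
      · subst h; exact h4
      · exact absurd h.symm huv
      · exact absurd (k2.trans (congrArg κ h)) (fun hh => k3 hh.symm)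
      · exact absurd (k2.trans (congrArg κ h)) (fun hh => k3 (k1.trans hh.symm))
    · exact absurd rfl k3
    · exact absurd k1 k3
  · -- p = d
    have hq' : q = c := by
      rcases hq with h | h | h | h
      · exact absurd (k1.trans (congrArg κ h)).symm had
      · exact absurd (k1.trans (congrArg κ h)).symm hbd
      · exact h
      · exact absurd h.symm hpq
    subst hq'
    rcases hu with rfl | rfl | rfl | rfl
    · rcases hv with h | h | h | h
      · exact absurd h.symm huv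
      · subst h; rw [pathE_swap]; exact h4
      · exact absurd (k2.trans (congrArg κ h)) (fun hh => k3 (k1.trans hh.symm))
      · exact absurd (k2.trans (congrArg κ h)) (fun hh => k3 hh.symm)
    · rcases hv with h | h | h | h
      · subst h; rw [pathE_swap]; exact h3
      · exact absurd h.symm huv
      · exact absurd (k2.trans (congrArg κ h)) (fun hh => k3 (k1.trans hh.symm))
      · exact absurd (k2.trans (congrArg κ h)) (fun hh => k3 hh.symm)
    · exact absurd k1 k3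
    · exact absurd rfl k3

/-- The H pair on six vertices. -/
def H6 : SimpleGraph (Fin 6) := ofList [(4, 5), (4, 0), (4, 1), (5, 2), (5, 3)]

/-- X3 plus a vertex, first case. -/
def X8 : SimpleGraph (Fin 8) :=
  ofList [(5, 4), (5, 7), (5, 1), (6, 4), (6, 0), (6, 1), (4, 3), (7, 2), (7, 3)]

/-- X3 plus a vertex, second case. -/
def Y8 : SimpleGraph (Fin 8) :=
  ofList [(5, 4), (5, 0), (5, 7), (6, 4), (6, 1), (6, 7), (4, 3), (7, 2), (7, 3)]

instance : DecidableRel H6.Adj := inferInstanceAs (DecidableRel (ofList _).Adj)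
instance : DecidableRel X8.Adj := inferInstanceAs (DecidableRel (ofList _).Adj)
instance : DecidableRel Y8.Adj := inferInstanceAs (DecidableRel (ofList _).Adj)

lemma tok_H6_1 : HasTOK4s (withPath H6 2 0 1 3) (cP 2 0 1 3) :=
  HasTOK4s.of_lists ![0, 1, 4, 5] (sixLists [0, 1] [0, 4] [0, 2, 5] [1, 4] [1, 3, 5] [4, 5])
    (by decide) (by decide) (by decide)

lemma tok_H6_2 : HasTOK4s (withPath H6 3 0 1 2) (cP 3 0 1 2) :=
  HasTOK4s.of_lists ![0, 1, 4, 5] (sixLists [0, 1] [0, 4] [0, 3, 5] [1, 4] [1, 2, 5] [4, 5])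
    (by decide) (by decide) (by decide)

lemma tok_H6_3 : HasTOK4s (withPath H6 0 2 3 1) (cP 0 2 3 1) :=
  HasTOK4s.of_lists ![2, 3, 5, 4] (sixLists [2, 3] [2, 5] [2, 0, 4] [3, 5] [3, 1, 4] [5, 4])
    (by decide) (by decide) (by decide)

lemma tok_H6_4 : HasTOK4s (withPath H6 1 2 3 0) (cP 1 2 3 0) :=
  HasTOK4s.of_lists ![2, 3, 5, 4] (sixLists [2, 3] [2, 5] [2, 1, 4] [3, 5] [3, 0, 4] [5, 4])
    (by decide) (by decide) (by decide)

lemma tok_X8_1 : HasTOK4s (withPath X8 2 0 1 3) (cP 2 0 1 3) :=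
  HasTOK4s.of_lists ![0, 1, 5, 7]
    (sixLists [0, 1] [0, 6, 4, 5] [0, 2, 7] [1, 5] [1, 3, 7] [5, 7])
    (by decide) (by decide) (by decide)

lemma tok_X8_2 : HasTOK4s (withPath X8 3 0 1 2) (cP 3 0 1 2) :=
  HasTOK4s.of_lists ![0, 1, 5, 7]
    (sixLists [0, 1] [0, 6, 4, 5] [0, 3, 7] [1, 5] [1, 2, 7] [5, 7])
    (by decide) (by decide) (by decide)

lemma tok_X8_3 : HasTOK4s (withPath X8 0 2 3 1) (cP 0 2 3 1) :=
  HasTOK4s.of_lists ![2, 3, 7, 5]
    (sixLists [2, 3] [2, 7] [2, 0, 6, 4, 5] [3, 7] [3, 1, 5] [7, 5])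
    (by decide) (by decide) (by decide)

lemma tok_X8_4 : HasTOK4s (withPath X8 1 2 3 0) (cP 1 2 3 0) :=
  HasTOK4s.of_lists ![2, 3, 7, 5]
    (sixLists [2, 3] [2, 7] [2, 1, 5] [3, 7] [3, 0, 6, 4, 5] [7, 5])
    (by decide) (by decide) (by decide)

lemma tok_Y8_1 : HasTOK4s (withPath Y8 2 0 1 3) (cP 2 0 1 3) :=
  HasTOK4s.of_lists ![0, 1, 5, 7]
    (sixLists [0, 1] [0, 5] [0, 2, 7] [1, 6, 4, 5] [1, 3, 7] [5, 7])
    (by decide) (by decide) (by decide)

lemma tok_Y8_2 : HasTOK4s (withPath Y8 3 0 1 2) (cP 3 0 1 2) :=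
  HasTOK4s.of_lists ![0, 1, 5, 7]
    (sixLists [0, 1] [0, 5] [0, 3, 7] [1, 6, 4, 5] [1, 2, 7] [5, 7])
    (by decide) (by decide) (by decide)

lemma tok_Y8_3 : HasTOK4s (withPath Y8 0 2 3 1) (cP 0 2 3 1) :=
  HasTOK4s.of_lists ![2, 3, 7, 5]
    (sixLists [2, 3] [2, 7] [2, 0, 5] [3, 7] [3, 1, 6, 4, 5] [7, 5])
    (by decide) (by decide) (by decide)

lemma tok_Y8_4 : HasTOK4s (withPath Y8 1 2 3 0) (cP 1 2 3 0) :=
  HasTOK4s.of_lists ![2, 3, 7, 5]
    (sixLists [2, 3] [2, 7] [2, 1, 6, 4, 5] [3, 7] [3, 0, 5] [7, 5])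
    (by decide) (by decide) (by decide)

/-- `HT` from a small graph with terminals `0, 1 | 2, 3`. -/
theorem HT.of_small {n : ℕ} [NeZero n] {K : SimpleGraph (Fin n)} {Z : SimpleGraph V}
    {κ : V → ZMod 2} (t0 t1 t2 t3 : Fin n) (φ : Fin n → V) (hφ : Function.Injective φ)
    (h01 : t0 ≠ t1) (h23 : t2 ≠ t3)
    (h : ∀ x y, K.Adj x y → Z.Adj (φ x) (φ y) ∧ κ (φ x) ≠ κ (φ y))
    (hTT : ∀ x ∈ ({φ t0, φ t1, φ t2, φ t3} : Set V), ∀ y ∈ ({φ t0, φ t1, φ t2, φ t3} : Set V),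
      ¬ Z.Adj x y)
    (h1 : κ (φ t0) = κ (φ t1)) (h2 : κ (φ t2) = κ (φ t3)) (h3 : κ (φ t0) ≠ κ (φ t2))
    (k1 : HasTOK4s (withPath K t2 t0 t1 t3) (cP t2 t0 t1 t3))
    (k2 : HasTOK4s (withPath K t3 t0 t1 t2) (cP t3 t0 t1 t2))
    (k3 : HasTOK4s (withPath K t0 t2 t3 t1) (cP t0 t2 t3 t1))
    (k4 : HasTOK4s (withPath K t1 t2 t3 t0) (cP t1 t2 t3 t0)) :
    HT Z κ {φ t0, φ t1, φ t2, φ t3} := by
  have m0 : φ t0 ∈ ({φ t0, φ t1, φ t2, φ t3} : Set V) := by simp
  have m1 : φ t1 ∈ ({φ t0, φ t1, φ t2, φ t3} : Set V) := by simp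
  have m2 : φ t2 ∈ ({φ t0, φ t1, φ t2, φ t3} : Set V) := by simp
  have m3 : φ t3 ∈ ({φ t0, φ t1, φ t2, φ t3} : Set V) := by simp
  have hK : ∀ x y, K.Adj x y → ∀ a b : Fin n, φ a ∈ ({φ t0, φ t1, φ t2, φ t3} : Set V) →
      φ b ∈ ({φ t0, φ t1, φ t2, φ t3} : Set V) → s(x, y) ≠ s(a, b) := by
    intro x y hxy a b ha hb he
    rw [Sym2.eq_iff] at he
    rcases he with ⟨rfl, rfl⟩ | ⟨rfl, rfl⟩
    · exact hTT _ ha _ hb (h _ _ hxy).1
    · exact hTT _ hb _ ha (h _ _ hxy).1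
  have h02 : t0 ≠ t2 := fun hh => h3 (by rw [hh])
  have h03 : t0 ≠ t3 := fun hh => h3 (by rw [hh, h2])
  have h12 : t1 ≠ t2 := fun hh => h3 (by rw [h1, hh])
  have h13 : t1 ≠ t3 := fun hh => h3 (by rw [h1, hh, h2])
  have hs : ∀ a b c d : Fin n, a ≠ c → a ≠ d → s(a, b) ≠ s(c, d) := by
    intro a b c d hac had he
    rw [Sym2.eq_iff] at he
    rcases he with ⟨e, -⟩ | ⟨e, -⟩
    · exact hac e
    · exact had e
  have hs' : ∀ a b c d : Fin n, b ≠ c → b ≠ d → s(a, b) ≠ s(c, d) := by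
    intro a b c d hac had he
    rw [Sym2.eq_iff] at he
    rcases he with ⟨-, e⟩ | ⟨-, e⟩
    · exact had e
    · exact hac e
  have h3' : κ (φ t2) ≠ κ (φ t1) := fun hh => h3 (h1.trans hh.symm)
  have h3'' : κ (φ t0) ≠ κ (φ t3) := fun hh => h3 (hh.trans h2.symm)
  refine HT.of_four h1 h2 h3 ?_ ?_ ?_ ?_
  · exact FrameX.of_small φ hφ h (fun x y hxy => ⟨hK x y hxy _ _ m2 m0, hK x y hxy _ _ m1 m3⟩)
      (hTT _ m2 _ m0) (hTT _ m0 _ m1) (hTT _ m1 _ m3) h1 h2 h3
      (hs' _ _ _ _ h12 h01.symm) (hs _ _ _ _ h01 h03) k1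
  · exact FrameX.of_small φ hφ h (fun x y hxy => ⟨hK x y hxy _ _ m3 m0, hK x y hxy _ _ m1 m2⟩)
      (hTT _ m3 _ m0) (hTT _ m0 _ m1) (hTT _ m1 _ m2) h1 h2.symm h3''
      (hs' _ _ _ _ h13 h01.symm) (hs _ _ _ _ h01 h02) k2
  · exact FrameX.of_small φ hφ h (fun x y hxy => ⟨hK x y hxy _ _ m0 m2, hK x y hxy _ _ m3 m1⟩)
      (hTT _ m0 _ m2) (hTT _ m2 _ m3) (hTT _ m3 _ m1) h2 h1 h3.symm
      (hs' _ _ _ _ h03.symm h23.symm) (hs _ _ _ _ h23 h12.symm) k3
  · exact FrameX.of_small φ hφ h (fun x y hxy => ⟨hK x y hxy _ _ m1 m2, hK x y hxy _ _ m3 m0⟩)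
      (hTT _ m1 _ m2) (hTT _ m2 _ m3) (hTT _ m3 _ m0) h2 h1.symm h3'
      (hs' _ _ _ _ h13.symm h23.symm) (hs _ _ _ _ h23 h02.symm) k4

end Pool.Agent.Helper57.TD
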